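import Mathlib
import Pool.Agent.Helper827.B17

/-!
For every scattered compact Hausdorff space `K` (no restriction on the Cantor-Bendixson height)
the space `C(K)` carries a Lipschitz `C^1` bump function.

The evaluations `t ↦ δ_t` form a norming family of functionals indexed by the compact space `K`;
an isolated point of a closed set `M ⊆ K` is a relatively open piece of diameter zero, so the
family is fragmented and the general construction applies.
-/

set_option autoImplicit false

namespace Pool.Agent.Results.MP_0211b8_an.C1BumpScattered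

open Pool.Agent.Helper827.B

lemma key (K : Type) [TopologicalSpace K] [CompactSpace K] [T2Space K]
    (hK : ∀ s : Set K, s.Nonempty → ∃ x ∈ s, ∃ U : Set K, IsOpen U ∧ U ∩ s = {x}) :
    ∃ P : C(K, ℝ) → ℝ, ContDiff ℝ 1 P ∧ P 0 = 1 ∧ ∀ f : C(K, ℝ), 2 ≤ ‖f‖ → P f = 0 := by
  let ev : K → (C(K, ℝ) →L[ℝ] ℝ) := fun t => ContinuousMap.evalCLM ℝ t
  have hap : ∀ t f, ev t f = f t := fun t f => rfl
  have hev : EvOK ev := by
    refine ⟨fun t => ?_, fun f => f.continuous⟩
    refine ContinuousLinearMap.opNorm_le_bound _ zero_le_one fun f => ?_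
    rw [one_mul]
    exact f.norm_coe_le_norm t
  have hfr : FrE ev := by
    intro ε hε M _ hne
    obtain ⟨x, hx, U, hU, hUx⟩ := hK M hne
    rw [Set.inter_comm] at hUx
    refine ⟨U, hU, by rw [hUx]; exact Set.singleton_nonempty x, ?_⟩
    intro h hh h' hh'
    rw [hUx, Set.mem_singleton_iff] at hh hh'
    rw [hh, hh', sub_self, norm_zero]
    exact hε.le
  obtain ⟨P, h1, h2, h3, h4⟩ := sep1 hev hfr (q := 1) (q' := 2) one_pos one_lt_two
  refine ⟨P, h1, h3 0 (fun t => by rw [map_zero, abs_zero]; exact zero_le_one), ?_⟩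
  intro f hf
  apply h4
  by_contra hcon
  push Not at hcon
  have : ‖f‖ < 2 := by
    rw [ContinuousMap.norm_lt_iff f two_pos]
    intro t
    exact hcon t
  linarith

/-- For every scattered compact Hausdorff space `K` the Banach space `C(K)` admits a bump
function that is `C^1`-smooth and Lipschitz. -/
theorem result (K : Type) [TopologicalSpace K] [CompactSpace K] [T2Space K]
    (hK : ∀ s : Set K, s.Nonempty → ∃ x ∈ s, ∃ U : Set K, IsOpen U ∧ U ∩ s = {x}) :
    ∃ f : C(K, ℝ) → ℝ, ContDiff ℝ 1 f ∧ (∃ L, LipschitzWith L f) ∧ f ≠ 0 ∧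
      Bornology.IsBounded (Function.support f) := by
  obtain ⟨P, h1, h2, h3⟩ := key K hK
  have hfr : Frg C(K, ℝ) := bump_frag (h1.differentiable (by norm_num)) ⟨0, by rw [h2]; exact one_ne_zero⟩ (by
    apply (Metric.isBounded_ball (x := (0 : C(K, ℝ))) (r := 2)).subset
    intro x hx
    rw [mem_ball_zero_iff]
    by_contra hcon
    push Not at hcon
    exact hx (h3 x hcon))
  obtain ⟨b, b1, b2, b3, b4⟩ := frechet_of_frag hfr
  exact ⟨b, b1, b2, fun h => b3 (by rw [h]; rfl), b4⟩

end Pool.Agent.Results.MP_0211b8_an.C1BumpScattered
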